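import Mathlib

/-!
# A factorial, transitive, rational language with infinitely many maximal free submonoids
-/

set_option autoImplicit false

namespace Pool.Agent.Results.MP_df6457_lc.InfinitelyMany

variable {A : Type}

/-- The minimal generating set `(M \ 1) \ (M \ 1)^2` of a submonoid of the free monoid. -/
def minGen (M : Submonoid (FreeMonoid A)) : Set (FreeMonoid A) :=
  {x | x ∈ M ∧ x ≠ 1 ∧ ¬ ∃ y ∈ M, ∃ z ∈ M, y ≠ 1 ∧ z ≠ 1 ∧ x = y * z}

/-- A submonoid is free when every one of its elements factors uniquely as a product of elements of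
its minimal generating set (existence of a factorization is automatic). -/
def IsFreeSubmonoid (M : Submonoid (FreeMonoid A)) : Prop :=
  ∀ l₁ l₂ : List (FreeMonoid A), (∀ x ∈ l₁, x ∈ minGen M) → (∀ x ∈ l₂, x ∈ minGen M) →
    l₁.prod = l₂.prod → l₁ = l₂

/-- `M` is an `L`-maximal free submonoid. -/
def IsMaximalFree (L : Set (FreeMonoid A)) (M : Submonoid (FreeMonoid A)) : Prop :=
  IsFreeSubmonoid M ∧ (M : Set (FreeMonoid A)) ⊆ L ∧
    ∀ N : Submonoid (FreeMonoid A), IsFreeSubmonoid N → M ≤ N → (N : Set (FreeMonoid A)) ⊆ L →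
      N = M

/-- Every factor of a word of `L` lies in `L`. -/
def IsFactorial (L : Set (FreeMonoid A)) : Prop := ∀ x u y, x * u * y ∈ L → u ∈ L

/-- For all `u, v` in `L` there is a word `w` with `uwv` in `L`. -/
def IsTransitiveLang (L : Set (FreeMonoid A)) : Prop := ∀ u ∈ L, ∀ v ∈ L, ∃ w, u * w * v ∈ L

/-- `L`, read as a set of lists of letters, is a regular language. -/
def IsRationalLang (L : Set (FreeMonoid A)) : Prop :=
  Language.IsRegular ({w : List A | FreeMonoid.ofList w ∈ L} : Language A)

/-- Stable submonoids. -/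
def Stable (M : Submonoid (FreeMonoid A)) : Prop :=
  ∀ u v w : FreeMonoid A, u ∈ M → v ∈ M → u * w ∈ M → w * v ∈ M → w ∈ M

theorem exists_fact (M : Submonoid (FreeMonoid A)) :
    ∀ (n : ℕ) (x : FreeMonoid A), x.length ≤ n → x ∈ M →
      ∃ l : List (FreeMonoid A), (∀ y ∈ l, y ∈ minGen M) ∧ l.prod = x := by
  intro n
  induction n with
  | zero =>
    intro x hx _
    have : x = 1 := FreeMonoid.length_eq_zero.1 (Nat.le_zero.1 hx)
    exact ⟨[], by simp, by simp [this]⟩
  | succ n ih =>
    intro x hx hM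
    by_cases h1 : x = 1
    · exact ⟨[], by simp, by simp [h1]⟩
    by_cases h : x ∈ minGen M
    · exact ⟨[x], by simpa using h, by simp⟩
    · have : ∃ y ∈ M, ∃ z ∈ M, y ≠ 1 ∧ z ≠ 1 ∧ x = y * z := by
        by_contra hc
        exact h ⟨hM, h1, hc⟩
      obtain ⟨y, hy, z, hz, hy1, hz1, rfl⟩ := this
      have hyl : y.length ≠ 0 := fun h => hy1 (FreeMonoid.length_eq_zero.1 h)
      have hzl : z.length ≠ 0 := fun h => hz1 (FreeMonoid.length_eq_zero.1 h)
      rw [FreeMonoid.length_mul] at hx
      obtain ⟨l, hl, rfl⟩ := ih y (by omega) hy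
      obtain ⟨m, hm, rfl⟩ := ih z (by omega) hz
      refine ⟨l ++ m, ?_, by simp⟩
      intro t ht
      rcases List.mem_append.1 ht with h | h
      · exact hl t h
      · exact hm t h

theorem prod_mem {M : Submonoid (FreeMonoid A)} {l : List (FreeMonoid A)}
    (hl : ∀ y ∈ l, y ∈ minGen M) : l.prod ∈ M :=
  Submonoid.list_prod_mem _ (fun y hy => (hl y hy).1)

theorem eq_one_of_mul {x y : FreeMonoid A} (h : x * y = 1) : x = 1 := by
  have : (x * y).length = 0 := by rw [h]; rfl
  rw [FreeMonoid.length_mul] at this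
  exact FreeMonoid.length_eq_zero.1 (by omega)

theorem stable_of_free {M : Submonoid (FreeMonoid A)} (h : IsFreeSubmonoid M) : Stable M := by
  intro u v w hu hv huw hwv
  obtain ⟨xs, hxs, rfl⟩ := exists_fact M _ u le_rfl hu
  obtain ⟨ts, hts, rfl⟩ := exists_fact M _ v le_rfl hv
  obtain ⟨zs, hzs, hz⟩ := exists_fact M _ _ le_rfl huw
  obtain ⟨ys, hys, hy⟩ := exists_fact M _ _ le_rfl hwv
  have heq : xs ++ ys = zs ++ ts := by
    apply h
    · intro x hx
      rcases List.mem_append.1 hx with h | h
      · exact hxs x h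
      · exact hys x h
    · intro x hx
      rcases List.mem_append.1 hx with h | h
      · exact hzs x h
      · exact hts x h
    · rw [List.prod_append, List.prod_append, hy, hz, mul_assoc]
  rcases List.append_eq_append_iff.1 heq with ⟨a, ha, hb⟩ | ⟨c, hc, hd⟩
  · have h1 : w = a.prod := by
      rw [ha, List.prod_append] at hz
      exact (mul_left_cancel hz).symm
    rw [h1]
    apply prod_mem
    intro y hy'
    exact hzs y (by rw [ha]; exact List.mem_append_right _ hy')
  · have h1 : w * c.prod = 1 := by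
      have : xs.prod * (w * c.prod) = xs.prod * 1 := by
        rw [← mul_assoc, ← hz, ← List.prod_append, ← hc, mul_one]
      exact mul_left_cancel this
    rw [eq_one_of_mul h1]
    exact M.one_mem

theorem factor_of_le {x y p q : FreeMonoid A} (h : x * p = y * q) (hl : x.length ≤ y.length) :
    ∃ w, y = x * w ∧ p = w * q := by
  have h' : FreeMonoid.toList x ++ FreeMonoid.toList p =
      FreeMonoid.toList y ++ FreeMonoid.toList q := by
    have := congrArg FreeMonoid.toList h
    simpa using this
  rcases List.append_eq_append_iff.1 h' with ⟨a, ha, hb⟩ | ⟨c, hc, hd⟩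
  · exact ⟨FreeMonoid.ofList a, ha, hb⟩
  · have h2 : c = [] := by
      have h3 := congrArg List.length hc
      rw [List.length_append] at h3
      have h4 : (FreeMonoid.toList x).length ≤ (FreeMonoid.toList y).length := hl
      exact List.length_eq_zero_iff.1 (by omega)
    subst h2
    refine ⟨1, ?_, ?_⟩
    · rw [mul_one]
      simpa using hc.symm
    · rw [one_mul]
      simpa using hd.symm

theorem free_of_stable {M : Submonoid (FreeMonoid A)} (h : Stable M) : IsFreeSubmonoid M := by
  have key : ∀ x ∈ minGen M, ∀ y ∈ minGen M, ∀ p ∈ M, ∀ q ∈ M, x * p = y * q →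
      x.length ≤ y.length → x = y := by
    intro x hx y hy p hp q hq he hl
    obtain ⟨w, hw1, hw2⟩ := factor_of_le he hl
    have hw : w ∈ M := h x q w hx.1 hq (hw1 ▸ hy.1) (hw2 ▸ hp)
    by_cases h1 : w = 1
    · rw [hw1, h1, mul_one]
    · exact absurd ⟨x, hx.1, w, hw, hx.2.1, h1, hw1⟩ hy.2.2
  intro l₁
  induction l₁ with
  | nil =>
    intro l₂ _ h2 he
    cases l₂ with
    | nil => rfl
    | cons y l₂ =>
      rw [List.prod_nil, List.prod_cons] at he
      exact absurd (eq_one_of_mul he.symm) (h2 y List.mem_cons_self).2.1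
  | cons x l₁ ih =>
    intro l₂ h1 h2 he
    cases l₂ with
    | nil =>
      rw [List.prod_nil, List.prod_cons] at he
      exact absurd (eq_one_of_mul he) (h1 x List.mem_cons_self).2.1
    | cons y l₂ =>
      rw [List.prod_cons, List.prod_cons] at he
      have h1' : ∀ z ∈ l₁, z ∈ minGen M := fun z hz => h1 z (List.mem_cons_of_mem _ hz)
      have h2' : ∀ z ∈ l₂, z ∈ minGen M := fun z hz => h2 z (List.mem_cons_of_mem _ hz)
      have hxy : x = y := by
        rcases le_total x.length y.length with hl | hl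
        · exact key x (h1 x List.mem_cons_self) y (h2 y List.mem_cons_self) _ (prod_mem h1') _
            (prod_mem h2') he hl
        · exact (key y (h2 y List.mem_cons_self) x (h1 x List.mem_cons_self) _ (prod_mem h2') _
            (prod_mem h1') he.symm hl).symm
      subst hxy
      rw [ih l₂ h1' h2' (mul_left_cancel he)]

theorem exists_maximal {L : Set (FreeMonoid A)} {M : Submonoid (FreeMonoid A)} (hM : Stable M)
    (hL : (M : Set (FreeMonoid A)) ⊆ L) : ∃ N, M ≤ N ∧ IsMaximalFree L N := by
  obtain ⟨N, hMN, hN⟩ := zorn_le_nonempty₀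
    {N : Submonoid (FreeMonoid A) | Stable N ∧ (N : Set (FreeMonoid A)) ⊆ L} (by
      intro c hc hchain y hy
      have hdir : DirectedOn (· ≤ ·) c := hchain.directedOn
      refine ⟨sSup c, ⟨?_, ?_⟩, fun z hz => le_sSup hz⟩
      · intro u v w hu hv huw hwv
        rw [Submonoid.mem_sSup_of_directedOn ⟨y, hy⟩ hdir] at hu hv huw hwv ⊢
        obtain ⟨s1, h1, hu⟩ := hu
        obtain ⟨s2, h2, hv⟩ := hv
        obtain ⟨s3, h3, huw⟩ := huw
        obtain ⟨s4, h4, hwv⟩ := hwv
        obtain ⟨t1, ht1, h11, h12⟩ := hdir s1 h1 s2 h2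
        obtain ⟨t2, ht2, h21, h22⟩ := hdir s3 h3 s4 h4
        obtain ⟨t, ht, h31, h32⟩ := hdir t1 ht1 t2 ht2
        exact ⟨t, ht, (hc ht).1 u v w (h31 (h11 hu)) (h31 (h12 hv)) (h32 (h21 huw))
          (h32 (h22 hwv))⟩
      · intro x hx
        rw [SetLike.mem_coe, Submonoid.mem_sSup_of_directedOn ⟨y, hy⟩ hdir] at hx
        obtain ⟨s, hs, hx⟩ := hx
        exact (hc hs).2 hx) M ⟨hM, hL⟩
  refine ⟨N, hMN, free_of_stable hN.prop.1, hN.prop.2, ?_⟩
  intro K hK hNK hKL
  exact le_antisymm (hN.le_of_ge ⟨stable_of_free hK, hKL⟩ hNK) hNK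

/-! ### The language of the words without the factor `bab` -/

/-- the automaton of the words with factor `bab`; state `3` is absorbing; `0` is the letter `a`
and `1` is the letter `b` -/
def dl (s : Fin 4) (x : Fin 2) : Fin 4 :=
  match s, x with
  | 0, 0 => 0
  | 0, 1 => 1
  | 1, 0 => 2
  | 1, 1 => 1
  | 2, 0 => 0
  | 2, 1 => 3
  | 3, _ => 3

/-- the words without the factor `bab` -/
def LL : Set (FreeMonoid (Fin 2)) := {w | ¬ [1, 0, 1] <:+: FreeMonoid.toList w}

/-- the words accepted by the automaton -/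
def LD (w : List (Fin 2)) : Prop := w.foldl dl 0 ≠ 3

def Rl (s t : Fin 4) : Prop := s = 0 ∨ s = t ∨ t = 3

instance (s t : Fin 4) : Decidable (Rl s t) := by unfold Rl; infer_instance

theorem Rl_step : ∀ s t x, Rl s t → Rl (dl s x) (dl t x) := by decide

theorem Rl_foldl (w : List (Fin 2)) : ∀ s t, Rl s t → Rl (w.foldl dl s) (w.foldl dl t) := by
  induction w with
  | nil => intro s t h; exact h
  | cons x w ih => intro s t h; exact ih _ _ (Rl_step s t x h)

theorem three (w : List (Fin 2)) : w.foldl dl 3 = 3 := by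
  induction w with
  | nil => rfl
  | cons x w ih => exact ih

theorem LD_of_infix {x u y : List (Fin 2)} (h : LD (x ++ u ++ y)) : LD u := by
  intro hu
  apply h
  rw [List.foldl_append, List.foldl_append]
  have := Rl_foldl u 0 (x.foldl dl 0) (Or.inl rfl)
  rw [hu] at this
  have h3 : u.foldl dl (x.foldl dl 0) = 3 := by
    rcases this with h | h | h
    · exact absurd h (by decide)
    · exact h.symm
    · exact h
  rw [h3, three]

/-- the last letters of a word, according to the state -/
theorem state_spec (w : List (Fin 2)) :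
    (w.foldl dl 0 = 1 → ∃ u, w = u ++ [1]) ∧ (w.foldl dl 0 = 2 → ∃ u, w = u ++ [1, 0]) ∧
      (w.foldl dl 0 = 3 → [1, 0, 1] <:+: w) := by
  induction w using List.reverseRecOn with
  | nil => simp
  | append_singleton w x ih =>
    rw [List.foldl_append, List.foldl_cons, List.foldl_nil]
    obtain ⟨h1, h2, h3⟩ := ih
    generalize w.foldl dl 0 = s at h1 h2 h3
    fin_cases s <;> fin_cases x <;> simp [dl] at h1 h2 h3 ⊢
    · obtain ⟨u, rfl⟩ := h1
      exact ⟨u, by simp⟩
    · obtain ⟨u, rfl⟩ := h2
      exact ⟨u, [], by simp⟩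
    · exact h3.trans (List.infix_append' [] w [0] |> fun h => by simpa using h)
    · exact h3.trans (List.infix_append' [] w [1] |> fun h => by simpa using h)

theorem mem_LL (w : FreeMonoid (Fin 2)) : w ∈ LL ↔ LD (FreeMonoid.toList w) := by
  constructor
  · intro h h3
    exact h ((state_spec _).2.2 h3)
  · rintro h ⟨s, t, hst⟩
    have h4 : LD (s ++ [1, 0, 1] ++ t) := by rw [hst]; exact h
    exact LD_of_infix h4 rfl

theorem LL_factorial : IsFactorial LL := by
  intro x u y h
  rw [mem_LL] at h ⊢
  exact LD_of_infix (by simpa using h)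

theorem LL_transitive : IsTransitiveLang LL := by
  intro u hu v hv
  refine ⟨FreeMonoid.ofList [0, 0], ?_⟩
  rw [mem_LL] at hu hv ⊢
  intro h
  apply hv
  simp only [FreeMonoid.toList_mul, FreeMonoid.toList_ofList, List.foldl_append,
    List.foldl_cons, List.foldl_nil] at h
  have h0 : ∀ s, s ≠ 3 → dl (dl s 0) 0 = 0 := by decide
  rwa [h0 _ hu] at h

theorem LL_rational : IsRationalLang LL := by
  refine ⟨Fin 4, inferInstance, ⟨dl, 0, {s | s ≠ 3}⟩, ?_⟩
  ext w
  exact (mem_LL (FreeMonoid.ofList w)).symm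

/-! ### The free submonoids `{b, a^p}*` -/

/-- counts the letters `a` modulo `p`; the letter `b` may only be read at `0` -/
def dp (p : ℕ) (c : Option (ZMod p)) (x : Fin 2) : Option (ZMod p) :=
  open Classical in
  match c with
  | none => none
  | some c => if x = 0 then some (c + 1) else if c = 0 then some 0 else none

theorem dp_foldl_none (p : ℕ) (w : List (Fin 2)) : w.foldl (dp p) none = none := by
  induction w with
  | nil => rfl
  | cons x w ih => exact ih

/-- the submonoid of the words which label loops at `0` -/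
def Mp (p : ℕ) : Submonoid (FreeMonoid (Fin 2)) where
  carrier := {w | (FreeMonoid.toList w).foldl (dp p) (some 0) = some 0}
  one_mem' := rfl
  mul_mem' := by
    intro u v hu hv
    simp only [Set.mem_setOf_eq] at hu hv ⊢
    rw [FreeMonoid.toList_mul, List.foldl_append, hu, hv]

theorem Mp_stable (p : ℕ) : Stable (Mp p) := by
  intro u v w hu _ huw _
  change (FreeMonoid.toList w).foldl (dp p) (some 0) = some 0
  have h1 : (FreeMonoid.toList u).foldl (dp p) (some 0) = some 0 := hu
  have h2 : (FreeMonoid.toList (u * w)).foldl (dp p) (some 0) = some 0 := huw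
  rwa [FreeMonoid.toList_mul, List.foldl_append, h1] at h2

/-- the relation between the two automata -/
def Tl (p : ℕ) (c : Option (ZMod p)) (s : Fin 4) : Prop :=
  c = none ∨ s = 0 ∨ (s = 1 ∧ c = some 0) ∨ (s = 2 ∧ c = some 1)

theorem Tl_step {p : ℕ} (hp : 1 < p) (c : Option (ZMod p)) (s : Fin 4) (x : Fin 2)
    (h : Tl p c s) : Tl p (dp p c x) (dl s x) := by
  haveI : Fact (1 < p) := ⟨hp⟩
  rcases h with rfl | rfl | ⟨rfl, rfl⟩ | ⟨rfl, rfl⟩
  · left; rfl
  · fin_cases x
    · right; left; rfl
    · cases c with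
      | none => left; rfl
      | some c =>
        by_cases hc : c = 0
        · right; right; left
          exact ⟨rfl, by simp [dp, hc]⟩
        · left
          simp [dp, hc]
  · fin_cases x
    · right; right; right
      exact ⟨rfl, by simp [dp]⟩
    · right; right; left
      exact ⟨rfl, by simp [dp]⟩
  · fin_cases x
    · right; left; rfl
    · left
      simp [dp]

theorem Tl_foldl {p : ℕ} (hp : 1 < p) (w : List (Fin 2)) : ∀ (c : Option (ZMod p)) (s : Fin 4),
    Tl p c s → Tl p (w.foldl (dp p) c) (w.foldl dl s) := by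
  induction w with
  | nil => intro c s h; exact h
  | cons x w ih => intro c s h; exact ih _ _ (Tl_step hp c s x h)

theorem Mp_sub {p : ℕ} (hp : 1 < p) : (Mp p : Set (FreeMonoid (Fin 2))) ⊆ LL := by
  intro w hw
  rw [mem_LL]
  intro h3
  have h := Tl_foldl hp (FreeMonoid.toList w) (some 0) 0 (Or.inr (Or.inl rfl))
  have hw' : (FreeMonoid.toList w).foldl (dp p) (some 0) = some 0 := hw
  rw [h3, hw'] at h
  rcases h with h | h | ⟨h, _⟩ | ⟨h, _⟩
  · exact absurd h (by simp)
  · exact absurd h (by decide)
  · exact absurd h (by decide)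
  · exact absurd h (by decide)

/-- the word `a^n` -/
def an (n : ℕ) : FreeMonoid (Fin 2) := (FreeMonoid.of 0) ^ n

theorem foldl_an (p n : ℕ) (c : ZMod p) :
    (FreeMonoid.toList (an n)).foldl (dp p) (some c) = some (c + n) := by
  induction n generalizing c with
  | zero => simp [an]
  | succ n ih =>
    have : an (n + 1) = FreeMonoid.of 0 * an n := by rw [an, pow_succ', ← an]
    rw [this, FreeMonoid.toList_mul, List.foldl_append]
    have h2 : (FreeMonoid.toList (FreeMonoid.of (0 : Fin 2))).foldl (dp p) (some c) =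
        some (c + 1) := by
      simp [dp]
    rw [h2, ih]
    congr 1
    push_cast
    ring

theorem an_mem (p : ℕ) : an p ∈ Mp p := by
  change (FreeMonoid.toList (an p)).foldl (dp p) (some 0) = some 0
  rw [foldl_an]
  simp

theorem b_mem (p : ℕ) : FreeMonoid.of 1 ∈ Mp p := by
  change (FreeMonoid.toList (FreeMonoid.of (1 : Fin 2))).foldl (dp p) (some 0) = some 0
  simp [dp]

theorem sub_mem {N : Submonoid (FreeMonoid (Fin 2))} (hN : Stable N) {m n : ℕ} (hmn : n ≤ m)
    (hm : an m ∈ N) (hn : an n ∈ N) : an (m - n) ∈ N := by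
  apply hN (an n) (an n) _ hn hn
  · rw [an, an, ← pow_add, Nat.add_sub_cancel' hmn]
    exact hm
  · rw [an, an, ← pow_add, Nat.sub_add_cancel hmn]
    exact hm

theorem gcd_mem {N : Submonoid (FreeMonoid (Fin 2))} (hN : Stable N) : ∀ (k m n : ℕ), m + n ≤ k →
    an m ∈ N → an n ∈ N → an (Nat.gcd m n) ∈ N := by
  intro k
  induction k with
  | zero =>
    intro m n h hm hn
    have : m = 0 := by omega
    have : n = 0 := by omega
    subst m n
    simpa using hm
  | succ k ih =>
    intro m n h hm hn
    rcases Nat.eq_zero_or_pos m with h0 | h0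
    · subst h0; simpa using hn
    rcases Nat.eq_zero_or_pos n with h1 | h1
    · subst h1; simpa using hm
    rcases le_total m n with hl | hl
    · have := ih m (n - m) (by omega) hm (sub_mem hN hl hn hm)
      rwa [Nat.gcd_sub_self_right hl] at this
    · have := ih (m - n) n (by omega) (sub_mem hN hl hm hn) hn
      rwa [Nat.gcd_sub_self_left hl] at this

/-- There is a factorial, transitive and rational language over two letters which contains
infinitely many maximal free submonoids. -/
theorem result : ∃ L : Set (FreeMonoid (Fin 2)), IsFactorial L ∧ IsTransitiveLang L ∧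
    IsRationalLang L ∧ {M : Submonoid (FreeMonoid (Fin 2)) | IsMaximalFree L M}.Infinite := by
  refine ⟨LL, LL_factorial, LL_transitive, LL_rational, ?_⟩
  have hex : ∀ p : {p : ℕ // p.Prime}, ∃ N, Mp p.1 ≤ N ∧ IsMaximalFree LL N := fun p =>
    exists_maximal (Mp_stable p.1) (Mp_sub p.2.one_lt)
  choose N hN1 hN2 using hex
  haveI : Infinite {p : ℕ // p.Prime} := Nat.infinite_setOf_prime.to_subtype
  refine Set.infinite_of_injective_forall_mem (f := N) ?_ hN2
  intro p q hpq
  by_contra hne
  have hcop : Nat.Coprime p.1 q.1 :=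
    (Nat.coprime_primes p.2 q.2).2 (fun h => hne (Subtype.ext h))
  have hst : Stable (N p) := stable_of_free (hN2 p).1
  have h1 : an p.1 ∈ N p := hN1 p (an_mem p.1)
  have h2 : an q.1 ∈ N p := by rw [hpq]; exact hN1 q (an_mem q.1)
  have h3 := gcd_mem hst _ p.1 q.1 le_rfl h1 h2
  rw [hcop] at h3
  have hb : FreeMonoid.of 1 ∈ N p := hN1 p (b_mem p.1)
  have ha : FreeMonoid.of 0 ∈ N p := by simpa [an] using h3
  have h4 : FreeMonoid.of 1 * FreeMonoid.of 0 * FreeMonoid.of 1 ∈ N p :=
    (N p).mul_mem ((N p).mul_mem hb ha) hb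
  have h5 := (hN2 p).2.1 h4
  exact h5 ⟨[], [], rfl⟩

end Pool.Agent.Results.MP_df6457_lc.InfinitelyMany
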